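import Mathlib
import Pool.Agent.Results.MP_96963f_co.SharpExponent

/-!
Asummability certificates of non-weightedness cannot have polynomial size: for every polynomial p
and all large n there is a switching function on n variables that is not weighted threshold but
is k-asummable for every k up to p(n).
-/

set_option autoImplicit false

namespace Pool.Agent.Results.MP_8a557e_co.NoPolynomial

open Filter

/-- The Boolean function `f` is weighted threshold: for some real weights and quota, `f` is true
exactly when the weighted sum reaches the quota. -/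
def IsWeighted {n : ℕ} (f : (Fin n → Bool) → Bool) : Prop :=
  ∃ (w : Fin n → ℝ) (q : ℝ), ∀ x : Fin n → Bool,
    f x = true ↔ q ≤ ∑ i, w i * (if x i = true then 1 else 0)

/-- `f` is `k`-summable: for some `j` with `1 ≤ j ≤ k` there are `j` true vectors and `j` false
vectors (repetitions allowed) with the same sum in `ℤ ^ n`. -/
def IsSummable {n : ℕ} (k : ℕ) (f : (Fin n → Bool) → Bool) : Prop :=
  ∃ j : ℕ, 1 ≤ j ∧ j ≤ k ∧ ∃ x y : Fin j → (Fin n → Bool),
    (∀ s, f (x s) = true) ∧ (∀ s, f (y s) = false) ∧
      ∀ i, ∑ s, (if x s i = true then (1 : ℤ) else 0) = ∑ s, (if y s i = true then (1 : ℤ) else 0)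

open Pool.Agent.Results.MP_96963f_co

lemma isWeighted_iff {n : ℕ} (f : (Fin n → Bool) → Bool) :
    IsWeighted f ↔ SharpExponent.IsThreshold f := by
  have h : ∀ b : Bool, ((b.toNat : ℕ) : ℝ) = if b = true then 1 else 0 := by
    intro b; cases b <;> simp
  unfold IsWeighted SharpExponent.IsThreshold
  simp only [h]

lemma isSummable_iff {n k : ℕ} (f : (Fin n → Bool) → Bool) :
    IsSummable k f ↔ ¬ SharpExponent.Asummable k f := by
  have h : ∀ b : Bool, (if b = true then (1 : ℤ) else 0) = ((b.toNat : ℕ) : ℤ) := by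
    intro b; cases b <;> simp
  unfold IsSummable SharpExponent.Asummable SharpExponent.KSummable
  push Not
  simp only [h, ← Nat.cast_sum, Nat.cast_inj]

/-- For all large `n` the number `M n` is at least `exp n`. -/
lemma eventually_M : ∀ᶠ n : ℕ in atTop, Real.exp n ≤ SharpExponent.M n := by
  have h1 := SharpExponent.result.2.2
  have h2 : ∀ᶠ n : ℕ in atTop, (1 / 4 : ℝ) < Real.log (SharpExponent.M n) / ((n : ℝ) * Real.log n) :=
    h1.eventually (lt_mem_nhds (by norm_num))
  have h3 : ∀ᶠ n : ℕ in atTop, (4 : ℝ) ≤ Real.log n :=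
    (Real.tendsto_log_atTop.comp tendsto_natCast_atTop_atTop).eventually (eventually_ge_atTop 4)
  filter_upwards [h2, h3, eventually_ge_atTop 1] with n h2 h3 h4
  have h5 : (0 : ℝ) < n := by exact_mod_cast h4
  have h6 : (0 : ℝ) < n * Real.log n := by positivity
  rw [lt_div_iff₀ h6] at h2
  have h7 : (n : ℝ) ≤ Real.log (SharpExponent.M n) := by nlinarith
  have h8 : (0 : ℝ) < SharpExponent.M n := by
    rcases Nat.eq_zero_or_pos (SharpExponent.M n) with h | h
    · rw [h] at h7
      simp at h7
      linarith
    · exact_mod_cast h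
  rw [← Real.exp_log h8]
  exact Real.exp_le_exp.mpr h7

/-- For every real polynomial `p`, for all sufficiently large `n` there is a switching function
(monotone Boolean function) on `n` variables that is not weighted threshold, and that is not
`k`-summable for any `k ≤ p(n)`. -/
theorem result :
    ∀ p : Polynomial ℝ, ∃ N : ℕ, ∀ n : ℕ, N ≤ n →
      ∃ f : (Fin n → Bool) → Bool, Monotone f ∧ ¬ IsWeighted f ∧
        ∀ k : ℕ, (k : ℝ) ≤ p.eval (n : ℝ) → ¬ IsSummable k f := by
  intro p
  have h1 : Tendsto (fun n : ℕ => p.eval (n : ℝ) / Real.exp n) atTop (nhds 0) :=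
    (Polynomial.tendsto_div_exp_atTop p).comp tendsto_natCast_atTop_atTop
  have h2 : ∀ᶠ n : ℕ in atTop, p.eval (n : ℝ) / Real.exp n < 1 / 2 :=
    h1.eventually (gt_mem_nhds (by norm_num))
  obtain ⟨N, hN⟩ := eventually_atTop.mp (h2.and (eventually_M.and (eventually_ge_atTop 1)))
  refine ⟨N, fun n hn => ?_⟩
  obtain ⟨h3, h4, h5⟩ := hN n hn
  have h6 : (0 : ℝ) < Real.exp n := Real.exp_pos _
  rw [div_lt_iff₀ h6] at h3
  have h7 : (2 : ℝ) ≤ Real.exp n := by
    have := Real.add_one_le_exp (n : ℝ)
    have : (1 : ℝ) ≤ n := by exact_mod_cast h5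
    linarith
  -- the largest order that does not certify
  have hpos : 1 ≤ SharpExponent.M n := by
    have : (1 : ℝ) ≤ SharpExponent.M n := by linarith
    exact_mod_cast this
  have hnot : ¬ SharpExponent.Certifies n (SharpExponent.M n - 1) := by
    intro h
    have h8 : SharpExponent.M n ≤ SharpExponent.M n - 1 := Nat.sInf_le h
    omega
  unfold SharpExponent.Certifies at hnot
  push Not at hnot
  obtain ⟨f, hf, has, hth⟩ := hnot
  refine ⟨f, hf, fun h => hth ((isWeighted_iff f).1 h), ?_⟩
  intro k hk hs
  rw [isSummable_iff] at hs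
  apply hs
  intro j hj1 hj2
  refine has j hj1 (hj2.trans ?_)
  have h9 : (k : ℝ) + 1 ≤ SharpExponent.M n := by linarith
  have h10 : k + 1 ≤ SharpExponent.M n := by exact_mod_cast h9
  omega

end Pool.Agent.Results.MP_8a557e_co.NoPolynomial
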